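import Pool.Agent.Helper920_Ratio.Main3

/-! The conjectured ratio inequality on a linear range of sizes for expanding graphs. -/

set_option autoImplicit false
open Classical

namespace Pool.Agent.Results.MP_99e3ed_co.Expanding

open Pool.Agent.Helper920.Ratio

/-- Let `n = 2dm`, let `H` be the disjoint union of `m` copies of `K_{d,d}`, let `G` be a
`d`-regular graph on `n` vertices and write `k = dm + 1 - j` with `1 ≤ j < dm`. If every nonempty
set `Y` of at most `2j` vertices satisfies `6 d j |Y| ≤ (5 d m + j - 5) e(Y)`, where `e(Y)` is the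
number of edges leaving `Y`, then `i_k(G) * i_{k-1}(H) ≤ i_k(H) * i_{k-1}(G)`. -/
theorem result :
    ∀ d m : ℕ, ∀ G : SimpleGraph (Fin (2 * d * m)), G.IsRegularOfDegree d →
      ∀ j k : ℕ, 1 ≤ j → j < d * m → k + j = d * m + 1 →
        (∀ Y : Finset (Fin (2 * d * m)), Y.Nonempty → Y.card ≤ 2 * j →
          6 * d * j * Y.card + 5 * (Finset.univ.filter
              (fun p : Fin (2 * d * m) × Fin (2 * d * m) =>
                p.1 ∈ Y ∧ p.2 ∉ Y ∧ G.Adj p.1 p.2)).card ≤
            (5 * (d * m) + j) * (Finset.univ.filter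
              (fun p : Fin (2 * d * m) × Fin (2 * d * m) =>
                p.1 ∈ Y ∧ p.2 ∉ Y ∧ G.Adj p.1 p.2)).card) →
        (Gᶜ.cliqueFinset k).card *
            ((SimpleGraph.fromRel
                (fun x y : Fin m × Bool × Fin d => x.1 = y.1 ∧ x.2.1 ≠ y.2.1))ᶜ.cliqueFinset
              (k - 1)).card ≤
          ((SimpleGraph.fromRel
                (fun x y : Fin m × Bool × Fin d => x.1 = y.1 ∧ x.2.1 ≠ y.2.1))ᶜ.cliqueFinset
              k).card *
            (Gᶜ.cliqueFinset (k - 1)).card := by
  intro d m G hG j k hj0 hjm hk hexp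
  rw [card_clique, card_clique, card_clique, card_clique]
  have hdeg := deg_sum G d hG
  have hV : Fintype.card (Fin (2 * d * m)) = 2 * (d * m) := by
    rw [Fintype.card_fin]; ring
  have hd1 : 1 ≤ d := by
    rcases Nat.eq_zero_or_pos d with h | h
    · subst h; simp at hjm
    · exact h
  obtain ⟨K, rfl⟩ : ∃ K, k = K + 1 := ⟨k - 1, by omega⟩
  rw [Nat.add_sub_cancel]
  have hKj : K + j = d * m := by omega
  have hK1 : 1 ≤ K := by omega
  have eG := main_exp G d hdeg hd1 (d * m) K j hV hj0 hK1 hKj (by
    intro Y hY hc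
    have h := hexp Y hY hc
    have e : cut G Y = (Finset.univ.filter
        (fun p : Fin (2 * d * m) × Fin (2 * d * m) =>
          p.1 ∈ Y ∧ p.2 ∉ Y ∧ G.Adj p.1 p.2)).card := by
      unfold cut
      congr 1
      ext p
      simp
    rw [e]
    exact h)
  have eH := main_H_ge (d := d) (m := m) hKj
  refine Nat.le_of_mul_le_mul_left ?_ (Nat.succ_pos K)
  calc (K + 1) * ((ind G (K + 1)).card * (ind (Hg d m) K).card)
      = ((K + 1) * (ind G (K + 1)).card) * (ind (Hg d m) K).card := by ring
    _ ≤ (j * (ind G K).card) * (ind (Hg d m) K).card := Nat.mul_le_mul_right _ eG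
    _ = (j * (ind (Hg d m) K).card) * (ind G K).card := by ring
    _ ≤ ((K + 1) * (ind (Hg d m) (K + 1)).card) * (ind G K).card := Nat.mul_le_mul_right _ eH
    _ = (K + 1) * ((ind (Hg d m) (K + 1)).card * (ind G K).card) := by ring

end Pool.Agent.Results.MP_99e3ed_co.Expanding
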