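import Pool.Agent.Helper920_Ratio.Main4

/-! The conjectured ratio inequality near the top for graphs without small components. -/

set_option autoImplicit false
open Classical

namespace Pool.Agent.Results.MP_99e3ed_co.LargeComponents

open Pool.Agent.Helper920.Ratio

/-- Let `n = 2dm`, let `H` be the disjoint union of `m` copies of `K_{d,d}`, let `G` be a
`d`-regular graph on `n` vertices and write `k = dm + 1 - j`. If `4 j ^ 2 + j + 1 ≤ dm` and every
connected component of `G` has more than `2j` vertices, then
`i_k(G) * i_{k-1}(H) ≤ i_k(H) * i_{k-1}(G)`. -/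
theorem result :
    ∀ d m : ℕ, 2 ≤ d → ∀ G : SimpleGraph (Fin (2 * d * m)), G.IsRegularOfDegree d →
      ∀ j k : ℕ, k + j = d * m + 1 → 4 * j ^ 2 + j + 1 ≤ d * m →
        (∀ v, 2 * j < (Finset.univ.filter (fun w => G.Reachable v w)).card) →
        (Gᶜ.cliqueFinset k).card *
            ((SimpleGraph.fromRel
                (fun x y : Fin m × Bool × Fin d => x.1 = y.1 ∧ x.2.1 ≠ y.2.1))ᶜ.cliqueFinset
              (k - 1)).card ≤
          ((SimpleGraph.fromRel
                (fun x y : Fin m × Bool × Fin d => x.1 = y.1 ∧ x.2.1 ≠ y.2.1))ᶜ.cliqueFinset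
              k).card *
            (Gᶜ.cliqueFinset (k - 1)).card := by
  intro d m hd2 G hG j k hk hj hcomp
  rw [card_clique, card_clique, card_clique, card_clique]
  have hdeg := deg_sum G d hG
  have hV : Fintype.card (Fin (2 * d * m)) = 2 * (d * m) := by
    rw [Fintype.card_fin]; ring
  have hk1 : 1 ≤ k := by
    have : j ≤ 4 * j ^ 2 := by nlinarith
    omega
  obtain ⟨K, rfl⟩ : ∃ K, k = K + 1 := ⟨k - 1, by omega⟩
  rw [Nat.add_sub_cancel]
  have hKj : K + j = d * m := by omega
  rcases Nat.eq_zero_or_pos j with hj0 | hj0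
  · have h0 : (ind G (K + 1)).card = 0 := by
      rw [Finset.card_eq_zero, Finset.eq_empty_iff_forall_notMem]
      intro J hJ
      rw [mem_ind] at hJ
      have := card_le G (d : ℤ) hdeg (by exact_mod_cast (by omega : 1 ≤ d)) (d * m) hV hJ.1
      omega
    rw [h0, zero_mul]
    exact Nat.zero_le _
  · have eG := main_comp G d hdeg hd2 (d * m) K j hV hj0 hKj hj (by
      intro v
      have h := hcomp v
      refine lt_of_lt_of_eq h ?_
      congr 1
      ext w
      simp)
    have eH := main_H_ge (d := d) (m := m) hKj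
    refine Nat.le_of_mul_le_mul_left ?_ (Nat.succ_pos K)
    calc (K + 1) * ((ind G (K + 1)).card * (ind (Hg d m) K).card)
        = ((K + 1) * (ind G (K + 1)).card) * (ind (Hg d m) K).card := by ring
      _ ≤ (j * (ind G K).card) * (ind (Hg d m) K).card := Nat.mul_le_mul_right _ eG
      _ = (j * (ind (Hg d m) K).card) * (ind G K).card := by ring
      _ ≤ ((K + 1) * (ind (Hg d m) (K + 1)).card) * (ind G K).card := Nat.mul_le_mul_right _ eH
      _ = (K + 1) * ((ind (Hg d m) (K + 1)).card * (ind G K).card) := by ring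

end Pool.Agent.Results.MP_99e3ed_co.LargeComponents
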