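import Pool.Agent.Helper920_Ratio.H

/-! The conjectured ratio inequality holds for all `k ≥ n / 2 - d + 2`. -/

set_option autoImplicit false
open Classical

namespace Pool.Agent.Results.MP_99e3ed_co.TopLayers

open Pool.Agent.Helper920.Ratio

/-- Let `n = 2dm`, let `H` be the disjoint union of `m` copies of `K_{d,d}` and let `G` be a
`d`-regular graph on `n` vertices. For every `k ≥ dm - d + 2`,
`i_k(G) * i_{k-1}(H) ≤ i_k(H) * i_{k-1}(G)`. -/
theorem result :
    ∀ d m : ℕ, ∀ G : SimpleGraph (Fin (2 * d * m)), G.IsRegularOfDegree d →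
      ∀ k : ℕ, 1 ≤ k → k ≤ 2 * d * m → d * m + 2 ≤ k + d →
        (Gᶜ.cliqueFinset k).card *
            ((SimpleGraph.fromRel
                (fun x y : Fin m × Bool × Fin d => x.1 = y.1 ∧ x.2.1 ≠ y.2.1))ᶜ.cliqueFinset
              (k - 1)).card ≤
          ((SimpleGraph.fromRel
                (fun x y : Fin m × Bool × Fin d => x.1 = y.1 ∧ x.2.1 ≠ y.2.1))ᶜ.cliqueFinset
              k).card *
            (Gᶜ.cliqueFinset (k - 1)).card := by
  intro d m G hG k hk1 hk2 hk3
  rw [card_clique, card_clique, card_clique, card_clique]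
  have hd1 : 1 ≤ d := by
    rcases Nat.eq_zero_or_pos d with h | h
    · subst h; simp at hk2; omega
    · exact h
  have hm1 : 1 ≤ m := by
    rcases Nat.eq_zero_or_pos m with h | h
    · subst h; simp at hk2; omega
    · exact h
  have hdeg : ∀ v, ∑ w, a G v w = (d : ℤ) := by
    intro v
    have h := hG v
    unfold a
    rw [Finset.sum_ite, Finset.sum_const_zero, add_zero, Finset.sum_const, nsmul_eq_mul, mul_one]
    have h2 : (Finset.univ.filter (fun w => G.Adj v w)).card = G.degree v := by
      rw [← SimpleGraph.card_neighborFinset_eq_degree]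
      congr 1
      ext w
      simp
    rw [h2]
    exact_mod_cast h
  have hV : Fintype.card (Fin (2 * d * m)) = 2 * (d * m) := by
    rw [Fintype.card_fin]; ring
  obtain ⟨K, rfl⟩ : ∃ K, k = K + 1 := ⟨k - 1, by omega⟩
  rw [Nat.add_sub_cancel]
  rcases le_or_gt (K + 1) (d * m) with hle | hgt
  · obtain ⟨j, hj⟩ : ∃ j, K + j = d * m := ⟨d * m - K, by omega⟩
    have hj1 : 1 ≤ j := by omega
    have hjd : j + 1 ≤ d := by omega
    have hM : d * m = d ∨ 2 * d ≤ d * m := by
      rcases Nat.lt_or_ge 1 m with h | h
      · right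
        rw [mul_comm 2 d]
        exact Nat.mul_le_mul_left d h
      · left
        have : m = 1 := by omega
        rw [this, mul_one]
    have eG := main_G G d hdeg (d * m) K j hV hM hj1 hjd hj
    have eH := main_H (d := d) (m := m) hj hjd
    refine Nat.le_of_mul_le_mul_left ?_ (Nat.succ_pos K)
    calc (K + 1) * ((ind G (K + 1)).card * (ind (Hg d m) K).card)
        = ((K + 1) * (ind G (K + 1)).card) * (ind (Hg d m) K).card := by ring
      _ ≤ (j * (ind G K).card) * (ind (Hg d m) K).card := Nat.mul_le_mul_right _ eG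
      _ = (j * (ind (Hg d m) K).card) * (ind G K).card := by ring
      _ = ((K + 1) * (ind (Hg d m) (K + 1)).card) * (ind G K).card := by rw [eH]
      _ = (K + 1) * ((ind (Hg d m) (K + 1)).card * (ind G K).card) := by ring
  · have h0 : (ind G (K + 1)).card = 0 := by
      rw [Finset.card_eq_zero, Finset.eq_empty_iff_forall_notMem]
      intro J hJ
      rw [mem_ind] at hJ
      have := card_le G (d : ℤ) hdeg (by exact_mod_cast hd1) (d * m) hV hJ.1
      omega
    rw [h0, zero_mul]
    exact Nat.zero_le _

end Pool.Agent.Results.MP_99e3ed_co.TopLayers
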